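import Mathlib
import Pool.Agent.R588.QP.Main
import Pool.Agent.Helper292.ForceCH

set_option autoImplicit false

/-!
# MP_21276c_lc, Q1: it is consistent that a Fubini iterate of p-points (of depth 2) is Tukey above
a non-selective q-point
-/

namespace Pool.Agent.Results.MP_21276c_lc.ConsistentCounterexample

open Pool.Agent.R588.QP

/-- (1) Some notion of forcing forces that `ω₁` is preserved and that the continuum hypothesis
holds. (2) The continuum hypothesis implies that there are a Fubini iterate `U` of p-points of
depth at most 2 and a q-point `V`, Tukey reducible to `U`, which is not selective. -/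
theorem result :
    (∃ (P : Type) (_ : Preorder P), Nonempty P ∧ ∀ p : P,
      p ∈ Pool.Agent.Helper292.ForceCH.OmegaOnePreserved P ∧
      p ∈ Pool.Agent.Helper292.ForceCH.CHHolds P) ∧
    (Cardinal.aleph 1 = Cardinal.continuum.{0} →
      ∃ U V : Ultrafilter ℕ, Iterate 2 U ∧ IsQPoint V ∧ TukeyLE V U ∧ ¬ IsSelective V) := by
  refine ⟨?_, fun hCH => main hCH⟩
  obtain ⟨P, i, h1, h2⟩ := Pool.Agent.Helper292.ForceCH.exists_forcing
  exact ⟨P, i, h1, fun p => ⟨(h2 p).1, (h2 p).2.2⟩⟩

end Pool.Agent.Results.MP_21276c_lc.ConsistentCounterexample
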